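import Pool.Agent.H12.FCB.HTL

/-!
HT1: prime ideals of height one of the chart rings are generated by homogeneous primes.
-/

namespace FCB

namespace HT1

open HTL

variable {R ι C : Type} {r : ℕ} [CommRing R] [IsDomain R] [Algebra ℂ R] [Fintype ι]
  {D : Cox R ι C r}

lemma exists_mem (hE : S_CHEL) (h : D.Laws) (c : C) (P : Ideal (D.chart c)) (hP : P.IsPrime)
    (s : Multiset R) : (∀ π ∈ s, Prime π ∧ ∃ g, π ∈ D.gr g) →
    ∃ g, s.prod ∈ D.gr g ∧ (∀ hm : qq D c g s.prod ∈ D.chart c,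
      (⟨qq D c g s.prod, hm⟩ : D.chart c) ∈ P → ∃ π ∈ s, ∃ g', ∃ hg' : π ∈ D.gr g', 
        (⟨qq D c g' π, qq_mem hE h c hg'⟩ : D.chart c) ∈ P) := by
  induction s using Multiset.induction_on with
  | empty =>
    intro _
    refine ⟨0, by simpa using D.one_mem, ?_⟩
    intro hm hmem
    exfalso
    apply hP.ne_top
    rw [Ideal.eq_top_iff_one]
    convert hmem
    simp [qq, Cox.monoZ_zero]
  | cons π s ih =>
    intro hs
    obtain ⟨hπ, g₁, hg₁⟩ := hs π (Multiset.mem_cons_self π s)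
    obtain ⟨g₂, hg₂, hrec⟩ := ih fun π' h' => hs π' (Multiset.mem_cons_of_mem h')
    refine ⟨g₁ + g₂, by rw [Multiset.prod_cons]; exact D.mul_mem hg₁ hg₂, ?_⟩
    intro hm hmem
    have e : (⟨qq D c (g₁ + g₂) (π ::ₘ s).prod, hm⟩ : D.chart c) =
        ⟨qq D c g₁ π, qq_mem hE h c hg₁⟩ * ⟨qq D c g₂ s.prod, qq_mem hE h c hg₂⟩ := by
      apply Subtype.ext
      show qq D c (g₁ + g₂) (π ::ₘ s).prod = qq D c g₁ π * qq D c g₂ s.prod
      unfold qq
      rw [Multiset.prod_cons, map_mul, map_add, neg_add, h.monoZ_add]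
      ring
    rw [e] at hmem
    rcases hP.mem_or_mem hmem with h1 | h1
    · exact ⟨π, Multiset.mem_cons_self π s, g₁, hg₁, h1⟩
    · obtain ⟨π', h', g', hg', h2⟩ := hrec (qq_mem hE h c hg₂) h1
      exact ⟨π', Multiset.mem_cons_of_mem h', g', hg', h2⟩

end HT1

open HTL HT1 in
/-- HT1. -/
theorem ht1 (hE : S_CHEL) (hR : S_HPRI) (hU : S_HUNI) (hF : S_HFAC) : S_HT1 := by
  intro R ι C r _ _ _ _ _ D h c P hP hP1
  -- a nonzero element of `P`
  have hPb : P ≠ ⊥ := by
    intro h0
    rw [h0, Ideal.height_bot] at hP1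
    exact zero_ne_one hP1
  obtain ⟨f, hfP, hf0⟩ := Submodule.exists_mem_ne_zero_of_ne_bot hPb
  obtain ⟨n, a, hn, ha, hf⟩ := f.2
  have hmn : algebraMap R (FractionRing R) (D.mono n) ≠ 0 := by
    rw [Ne, FaithfulSMul.algebraMap_eq_zero_iff]; exact h.mono_ne n
  have ha0 : a ≠ 0 := by
    intro h0
    rw [h0, map_zero] at hf
    exact hf0 (Subtype.ext ((mul_eq_zero.1 hf).resolve_right hmn))
  obtain ⟨s, hs, hsa⟩ := hR R ι C r D h (D.wt n) a ha ha0
  obtain ⟨g, hg, hrec⟩ := exists_mem hE h c P hP s hs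
  obtain ⟨v, hv⟩ := hsa.symm
  -- `s.prod = a * v`
  have hv0 : (v : R) ∈ D.gr 0 := unit_mem hF hU h v.isUnit
  have hgn : g = D.wt n := by
    apply deg_unique h hg _ (by rw [← hv]; exact mul_ne_zero ha0 v.ne_zero)
    rw [← hv]
    have := D.mul_mem ha hv0
    rwa [add_zero] at this
  subst hgn
  have hmem : (⟨qq D c (D.wt n) s.prod, qq_mem hE h c hg⟩ : D.chart c) ∈ P := by
    set e : ι → ℤ := (fun j => (n j : ℤ)) + -(D.σ c (D.wt n)) with he
    have he1 : ∀ j, e j ≠ 0 → j ∈ D.u c := by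
      refine supp_add (D := D) ?_ (supp_neg (D := D) (h.σ_supp c _))
      intro j hj
      exact hn j (by simpa using hj)
    have he2 : D.wtZ e = 0 := by
      rw [he, D.wtZ_add, D.wtZ_neg, h.σ_wt, D.wtZ_cast, add_neg_cancel]
    have m2 : D.monoZ e ∈ D.chart c := (hE R ι C r D h c).2.1 e he1 he2
    have m3 : algebraMap R (FractionRing R) (v : R) ∈ D.chart c := by
      have := qq_mem hE h c hv0
      simpa [qq, Cox.monoZ_zero] using this
    have e1 : (⟨qq D c (D.wt n) s.prod, qq_mem hE h c hg⟩ : D.chart c) =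
        (⟨D.monoZ e, m2⟩ * ⟨algebraMap R (FractionRing R) (v : R), m3⟩) * f := by
      apply Subtype.ext
      show qq D c (D.wt n) s.prod = (D.monoZ e * algebraMap R (FractionRing R) (v : R)) * f
      unfold qq
      rw [← hv, map_mul, ← hf, he, h.monoZ_add, Cox.monoZ_cast]
      ring
    rw [e1]
    exact P.mul_mem_left _ hfP
  obtain ⟨π, hπs, g', hg', hqP⟩ := hrec _ hmem
  have hπ : Prime π := (hs π hπs).1
  have hu : ∀ j ∈ D.u c, ¬ π ∣ D.X j := by
    classical
    intro j hj hd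
    obtain ⟨w, hw⟩ := (hπ.associated_of_dvd (h.prime j) hd)
    -- `X j = π * w`
    have hw0 : (w : R) ∈ D.gr 0 := unit_mem hF hU h w.isUnit
    have hgj : g' = D.deg j := by
      apply deg_unique h _ (D.X_mem j) (h.X_ne j)
      rw [← hw]
      have := D.mul_mem hg' hw0
      rwa [add_zero] at this
    subst hgj
    apply hP.ne_top
    rw [Ideal.eq_top_iff_one]
    set e : ι → ℤ := D.σ c (D.deg j) + -(Pi.single j 1) with he
    have he1 : ∀ k, e k ≠ 0 → k ∈ D.u c := by
      refine supp_add (D := D) (h.σ_supp c _) (supp_neg (D := D) ?_)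
      intro k hk
      by_cases hkj : k = j
      · rw [hkj]; exact hj
      · rw [Pi.single_eq_of_ne hkj] at hk; exact absurd rfl hk
    have he2 : D.wtZ e = 0 := by
      rw [he, D.wtZ_add, D.wtZ_neg, h.σ_wt, D.wtZ_single, one_smul, add_neg_cancel]
    have m2 : D.monoZ e ∈ D.chart c := (hE R ι C r D h c).2.1 e he1 he2
    have m3 : algebraMap R (FractionRing R) (w : R) ∈ D.chart c := by
      have := qq_mem hE h c hw0
      simpa [qq, Cox.monoZ_zero] using this
    have e1 : (1 : D.chart c) = (⟨D.monoZ e, m2⟩ * ⟨algebraMap R (FractionRing R) (w : R), m3⟩) *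
        ⟨qq D c (D.deg j) π, qq_mem hE h c hg'⟩ := by
      apply Subtype.ext
      show (1 : FractionRing R) = (D.monoZ e * algebraMap R (FractionRing R) (w : R)) *
        qq D c (D.deg j) π
      unfold qq
      have h1 : algebraMap R (FractionRing R) (D.X j) =
          algebraMap R (FractionRing R) π * algebraMap R (FractionRing R) (w : R) := by
        rw [← map_mul, hw]
      have h2 : D.monoZ e = D.monoZ (D.σ c (D.deg j)) * (algebraMap R (FractionRing R) (D.X j))⁻¹ := by
        rw [he, h.monoZ_add, h.monoZ_neg, Cox.monoZ_single, zpow_one]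
      have h3 := h.xF_ne j
      have h4 := h.monoZ_ne (D.σ c (D.deg j))
      have h5 : (D.monoZ (D.σ c (D.deg j)) * (algebraMap R (FractionRing R) (D.X j))⁻¹ *
          algebraMap R (FractionRing R) (w : R)) *
          (algebraMap R (FractionRing R) π * D.monoZ (-(D.σ c (D.deg j)))) =
          (D.monoZ (D.σ c (D.deg j)) * D.monoZ (-(D.σ c (D.deg j)))) *
          ((algebraMap R (FractionRing R) (D.X j))⁻¹ *
            (algebraMap R (FractionRing R) π * algebraMap R (FractionRing R) (w : R))) := by ring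
      rw [h2, h5, ← h1, inv_mul_cancel₀ h3, mul_one, h.monoZ_neg, mul_inv_cancel₀ h4]
    rw [e1]
    exact P.mul_mem_left _ hqP
  have hp := prime_qq hE hF h c hπ hg' hu
  have hspan := Ideal.eq_span_singleton_of_height_eq_one hP1 hqP hp
  refine ⟨g', π, hπ, hg', hu, ?_⟩
  intro a
  rw [hspan, Ideal.mem_span_singleton]
  constructor
  · rintro ⟨b, hb⟩
    refine ⟨b, ?_⟩
    rw [hb]
    show qq D c g' π * (b : FractionRing R) = b * qq D c g' π
    ring
  · rintro ⟨b, hb⟩
    refine ⟨b, Subtype.ext ?_⟩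
    rw [hb]
    show (b : FractionRing R) * qq D c g' π = qq D c g' π * b
    ring

end FCB
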