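import Pool.Agent.H12.FCB.HTL

/-!
HT1C: homogeneous primes which do not divide the units of the chart give prime ideals of height one.
-/

namespace FCB

open HTL in
/-- HT1C. -/
theorem ht1c (hE : S_CHEL) (hG : S_CHFG) (hF : S_HFAC) : S_HT1C := by
  intro R ι C r _ _ _ _ _ D h c g π hπ hg hu
  have hp := prime_qq hE hF h c hπ hg hu
  have hnoeth : IsNoetherianRing (D.chart c) := by
    have := hG R ι C r D h c
    exact Algebra.FiniteType.isNoetherianRing ℂ _
  refine ⟨Ideal.span {⟨qq D c g π, qq_mem hE h c hg⟩}, ?_, ?_, ?_⟩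
  · exact (Ideal.span_singleton_prime hp.ne_zero).2 hp
  · exact Ideal.height_span_singleton_eq_one_of_mem_nonZeroDivisors
      (mem_nonZeroDivisors_of_ne_zero hp.ne_zero) hp.not_isUnit
  · intro a
    rw [Ideal.mem_span_singleton]
    constructor
    · rintro ⟨b, hb⟩
      refine ⟨b, ?_⟩
      rw [hb]
      show qq D c g π * (b : FractionRing R) = b * qq D c g π
      ring
    · rintro ⟨b, hb⟩
      refine ⟨b, Subtype.ext ?_⟩
      rw [hb]
      show (b : FractionRing R) * qq D c g π = qq D c g π * b
      ring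

end FCB
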