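import Pool.Agent.H30.FCB.StE
import Pool.Agent.H30.FCB.Basic

/-!
Common lemmas for HT1 and HT1C: homogeneous primes and prime elements of the chart rings.
-/

namespace FCB

namespace HTL

variable {R ι C : Type} {r : ℕ} [CommRing R] [IsDomain R] [Algebra ℂ R] [Fintype ι]
  {D : Cox R ι C r}

omit [IsDomain R] in
/-- degrees of nonzero homogeneous elements are unique -/
lemma deg_unique (h : D.Laws) {g g' : Fin r → ℤ} {a : R} (ha : a ∈ D.gr g) (ha' : a ∈ D.gr g')
    (h0 : a ≠ 0) : g = g' := by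
  classical
  by_contra hne
  have hs := h.indep (Finsupp.single g a - Finsupp.single g' a) (by
    intro k
    rw [Finsupp.sub_apply]
    refine Submodule.sub_mem _ ?_ ?_
    · by_cases hk : g = k
      · subst hk; simpa using ha
      · rw [Finsupp.single_eq_of_ne (Ne.symm hk)]; exact Submodule.zero_mem _
    · by_cases hk : g' = k
      · subst hk; simpa using ha'
      · rw [Finsupp.single_eq_of_ne (Ne.symm hk)]; exact Submodule.zero_mem _) (by
    rw [Finsupp.sum_sub_index (by intros; rfl), Finsupp.sum_single_index rfl,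
      Finsupp.sum_single_index rfl, sub_self])
  have h1 := DFunLike.congr_fun hs g
  rw [Finsupp.sub_apply, Finsupp.single_eq_same, Finsupp.single_eq_of_ne hne] at h1
  apply h0
  simpa using h1

/-- units are homogeneous of degree zero -/
lemma unit_mem (hF : S_HFAC) (hU : S_HUNI) (h : D.Laws) {v : R} (hv : IsUnit v) : v ∈ D.gr 0 := by
  obtain ⟨w, hw⟩ := hv.exists_right_inv
  obtain ⟨g₁, g₂, h1, h2⟩ := hF R ι C r D h 0 v w (by rw [hw]; exact D.one_mem) (by
    rw [hw]; exact one_ne_zero)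
  have := (hU R ι C r D h).1 g₁ v h1 hv
  rwa [this] at h1

/-- the element `π X^(-σ g)` -/
noncomputable def qq (D : Cox R ι C r) (c : C) (g : Fin r → ℤ) (a : R) : FractionRing R :=
  algebraMap R (FractionRing R) a * D.monoZ (-(D.σ c g))

lemma qq_mem (hE : S_CHEL) (h : D.Laws) (c : C) {g : Fin r → ℤ} {a : R} (ha : a ∈ D.gr g) :
    qq D c g a ∈ D.chart c := (hE R ι C r D h c).1 g a ha

omit [CommRing R] [IsDomain R] [Fintype ι] [Algebra ℂ R] in
lemma supp_add {c : C} {m n : ι → ℤ} (hm : ∀ j, m j ≠ 0 → j ∈ D.u c) (hn : ∀ j, n j ≠ 0 → j ∈ D.u c) :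
    ∀ j, (m + n) j ≠ 0 → j ∈ D.u c := by
  intro j hj
  by_cases h : m j = 0
  · exact hn j (by intro h2; exact hj (by simp [h, h2]))
  · exact hm j h

omit [Algebra ℂ R] in
omit [CommRing R] [IsDomain R] [Fintype ι] [Algebra ℂ R] in
lemma supp_neg {c : C} {m : ι → ℤ} (hm : ∀ j, m j ≠ 0 → j ∈ D.u c) :
    ∀ j, (-m) j ≠ 0 → j ∈ D.u c := by
  intro j hj
  exact hm j (by simpa using hj)

omit [IsDomain R] [Algebra ℂ R] in
/-- a prime which divides no unit coordinate divides no monomial in them -/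
lemma not_dvd_mono {c : C} {π : R} (hπ : Prime π) (hu : ∀ j ∈ D.u c, ¬ π ∣ D.X j) {n : ι → ℕ}
    (hn : ∀ j, n j ≠ 0 → j ∈ D.u c) : ¬ π ∣ D.mono n := by
  intro hd
  unfold Cox.mono at hd
  obtain ⟨j, -, hj⟩ := (hπ.dvd_finsetProd_iff _).1 hd
  by_cases h0 : n j = 0
  · rw [h0, pow_zero] at hj
    exact hπ.not_dvd_one hj
  · exact hu j (hn j h0) (hπ.dvd_of_dvd_pow hj)

/-- divisibility by `π X^(-σ g)` in the chart ring is divisibility of the numerator by `π` -/
lemma dvd_iff (hE : S_CHEL) (hF : S_HFAC) (h : D.Laws) (c : C) {g : Fin r → ℤ} {π : R}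
    (hπ : Prime π) (hg : π ∈ D.gr g) (hu : ∀ j ∈ D.u c, ¬ π ∣ D.X j) (f : D.chart c)
    (n : ι → ℕ) (a : R) (hn : ∀ j, n j ≠ 0 → j ∈ D.u c) (ha : a ∈ D.gr (D.wt n))
    (hf : (f : FractionRing R) * algebraMap R (FractionRing R) (D.mono n) =
      algebraMap R (FractionRing R) a) :
    (⟨qq D c g π, qq_mem hE h c hg⟩ : D.chart c) ∣ f ↔ π ∣ a := by
  have hinj : Function.Injective (algebraMap R (FractionRing R)) := IsFractionRing.injective R (FractionRing R)
  have hmn : algebraMap R (FractionRing R) (D.mono n) ≠ 0 := by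
    rw [Ne, FaithfulSMul.algebraMap_eq_zero_iff]; exact h.mono_ne n
  constructor
  · rintro ⟨b, hb⟩
    have hb' : (f : FractionRing R) = qq D c g π * (b : FractionRing R) := by rw [hb]; rfl
    obtain ⟨m, b', hm, hb1, hb2⟩ := b.2
    -- positive and negative parts of `σ c g`
    set p : ι → ℕ := fun j => (D.σ c g j).toNat
    set p' : ι → ℕ := fun j => (-(D.σ c g j)).toNat
    have hp : ∀ j, p j ≠ 0 → j ∈ D.u c := by
      intro j hj
      exact h.σ_supp c g j (by intro h0; exact hj (by simp [p, h0]))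
    have hpp : D.monoZ (-(D.σ c g)) * algebraMap R (FractionRing R) (D.mono p) = algebraMap R (FractionRing R) (D.mono p') := by
      rw [← Cox.monoZ_cast, ← Cox.monoZ_cast, ← h.monoZ_add]
      congr 1
      funext j
      simp only [Pi.add_apply, Pi.neg_apply, p, p']
      omega
    have key : a * D.mono m * D.mono p = π * (b' * D.mono p' * D.mono n) := by
      apply hinj
      simp only [map_mul]
      rw [← hf, hb', ← hb2, ← hpp]
      unfold qq
      ring
    have h1 : π ∣ a * D.mono m * D.mono p := ⟨_, key⟩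
    rcases hπ.dvd_or_dvd h1 with h2 | h2
    · rcases hπ.dvd_or_dvd h2 with h3 | h3
      · exact h3
      · exact absurd h3 (not_dvd_mono hπ hu hm)
    · exact absurd h2 (not_dvd_mono hπ hu hp)
  · rintro ⟨s, hs⟩
    by_cases ha0 : a = 0
    · have : (f : FractionRing R) = 0 := by
        rw [ha0, map_zero] at hf
        exact (mul_eq_zero.1 hf).resolve_right hmn
      have : f = 0 := Subtype.ext this
      rw [this]; exact dvd_zero _
    · have hs0 : π * s ≠ 0 := by rw [← hs]; exact ha0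
      obtain ⟨g₁, g₂, h1, h2⟩ := hF R ι C r D h (D.wt n) π s (by rw [← hs]; exact ha) hs0
      have hdeg : D.wt n = g + g₂ :=
        deg_unique h ha (by rw [hs]; exact D.mul_mem hg h2) ha0
      -- the Laurent monomial of weight zero
      set e : ι → ℤ := D.σ c g₂ + (D.σ c g + -(fun j => (n j : ℤ))) with he
      have he1 : ∀ j, e j ≠ 0 → j ∈ D.u c := by
        refine supp_add (D := D) (h.σ_supp c g₂) (supp_add (D := D) (h.σ_supp c g) (supp_neg (D := D) ?_))
        intro j hj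
        exact hn j (by simpa using hj)
      have he2 : D.wtZ e = 0 := by
        rw [he, D.wtZ_add, D.wtZ_add, D.wtZ_neg, h.σ_wt, h.σ_wt, D.wtZ_cast, hdeg]
        abel
      have m1 : qq D c g₂ s ∈ D.chart c := qq_mem hE h c h2
      have m2 : D.monoZ e ∈ D.chart c := (hE R ι C r D h c).2.1 e he1 he2
      refine ⟨⟨qq D c g₂ s, m1⟩ * ⟨D.monoZ e, m2⟩, ?_⟩
      apply Subtype.ext
      show (f : FractionRing R) = qq D c g π * (qq D c g₂ s * D.monoZ e)
      have h3 : (f : FractionRing R) = algebraMap R (FractionRing R) a / algebraMap R (FractionRing R) (D.mono n) := by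
        rw [eq_div_iff hmn, hf]
      have hz1 := h.monoZ_ne (D.σ c g)
      have hz2 := h.monoZ_ne (D.σ c g₂)
      rw [h3, hs, he, h.monoZ_add, h.monoZ_add, h.monoZ_neg, Cox.monoZ_cast]
      unfold qq
      rw [h.monoZ_neg, h.monoZ_neg, map_mul]
      field_simp

/-- `π X^(-σ g)` is a prime element of the chart ring -/
lemma prime_qq (hE : S_CHEL) (hF : S_HFAC) (h : D.Laws) (c : C) {g : Fin r → ℤ} {π : R}
    (hπ : Prime π) (hg : π ∈ D.gr g) (hu : ∀ j ∈ D.u c, ¬ π ∣ D.X j) :
    Prime (⟨qq D c g π, qq_mem hE h c hg⟩ : D.chart c) := by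
  refine ⟨?_, ?_, ?_⟩
  · intro h0
    have h1 : qq D c g π = 0 := congrArg Subtype.val h0
    unfold qq at h1
    rcases mul_eq_zero.1 h1 with h2 | h2
    · rw [FaithfulSMul.algebraMap_eq_zero_iff] at h2
      exact hπ.ne_zero h2
    · exact h.monoZ_ne _ h2
  · intro hunit
    have h1 : (⟨qq D c g π, qq_mem hE h c hg⟩ : D.chart c) ∣ 1 := isUnit_iff_dvd_one.1 hunit
    have h2 := (dvd_iff hE hF h c hπ hg hu 1 0 1 (by simp)
      (by rw [D.wt_zero]; exact D.one_mem) (by rw [D.mono_zero]; simp)).1 h1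
    exact hπ.not_dvd_one h2
  · intro f₁ f₂ hd
    obtain ⟨n₁, a₁, hn₁, ha₁, hf₁⟩ := f₁.2
    obtain ⟨n₂, a₂, hn₂, ha₂, hf₂⟩ := f₂.2
    have hd' := (dvd_iff hE hF h c hπ hg hu (f₁ * f₂) (n₁ + n₂) (a₁ * a₂) (by
      intro j hj
      by_cases h1 : n₁ j = 0
      · exact hn₂ j (by intro h2; exact hj (by simp [h1, h2]))
      · exact hn₁ j h1) (by rw [D.wt_add]; exact D.mul_mem ha₁ ha₂) (by
      rw [D.mono_add, map_mul, map_mul, ← hf₁, ← hf₂]
      show ((f₁ : FractionRing R) * (f₂ : FractionRing R)) * _ = _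
      ring)).1 hd
    rcases hπ.dvd_or_dvd hd' with h1 | h1
    · left; exact (dvd_iff hE hF h c hπ hg hu f₁ n₁ a₁ hn₁ ha₁ hf₁).2 h1
    · right; exact (dvd_iff hE hF h c hπ hg hu f₂ n₂ a₂ hn₂ ha₂ hf₂).2 h1

end HTL

end FCB
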